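import Pool.Agent.R441.Num

/-!
Part (b) of the conjecture fails for `p = 41` (where `4 p = 41·2² + 3·0²`).
-/

set_option autoImplicit false

namespace Pool.Agent.Results.MP_2a5e5c_nt.FortyOneFails

open Pool.Agent.R441 (CongMod not_congMod)

/-- `binom(a,k) = a (a-1) ⋯ (a-k+1) / k!` -/
def bc (a : ℚ) (k : ℕ) : ℚ := (∏ j ∈ Finset.range k, (a - j)) / k.factorial

/-- `S_1(p) = ∑_{k<p} binom(-1/3,k) binom(-1/6,k) / (-1024)^k` -/
def S1 (p : ℕ) : ℚ := ∑ k ∈ Finset.range p, bc (-1 / 3) k * bc (-1 / 6) k / (-1024) ^ k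

/-- `S_2(p) = ∑_{k<p} binom(-2/3,k) binom(-5/6,k) / (-1024)^k` -/
def S2 (p : ℕ) : ℚ := ∑ k ∈ Finset.range p, bc (-2 / 3) k * bc (-5 / 6) k / (-1024) ^ k

/-- `e_p = (1 - (p/3))/2` -/
def e (p : ℕ) : ℕ := if p % 3 = 1 then 0 else 1

/-- `c_p = (41/p) (1025/1024)^(e_p)` -/
def c (p : ℕ) : ℚ := jacobiSym 41 p * (1025 / 1024) ^ e p

/-- The congruences of part (b) for the prime `p` with `4 p = 41 x² + 3 y²` -/
def PartB (p : ℕ) (x : ℤ) : Prop :=
  CongMod p 2 (S1 p) (c p * S2 p) ∧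
  CongMod p 2 (S1 p) (5 / 32 * jacobiSym x 3 * (41 * x - p / x))

/-- There are a prime `p > 3` (namely `p = 41`) and integers `x`, `y` with `4 p = 41 x² + 3 y²`
for which part (b) fails; in fact the congruence `S_1(p) ≡ c_p S_2(p) (mod p²)` fails there. -/
theorem result : ∃ p : ℕ, ∃ x y : ℤ, p = 41 ∧ p.Prime ∧ 3 < p ∧
    4 * (p : ℤ) = 41 * x ^ 2 + 3 * y ^ 2 ∧ ¬ PartB p x ∧ ¬ CongMod p 2 (S1 p) (c p * S2 p) := by
  have hc : c 41 = 0 := by
    have : jacobiSym 41 41 = 0 := by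
      rw [jacobiSym.eq_zero_iff]; refine ⟨by norm_num, ?_⟩; decide
    simp [c, this]
  have h1 : ¬ CongMod 41 2 (S1 41) (c 41 * S2 41) := by
    rw [hc, zero_mul]
    exact not_congMod (by norm_num) (by decide +kernel)
  exact ⟨41, 2, 0, rfl, by norm_num, by norm_num, by norm_num, fun h => h1 h.1, h1⟩

end Pool.Agent.Results.MP_2a5e5c_nt.FortyOneFails
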